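import Mathlib
import Pool.Agent.Lib.helper13.TangMinor

set_option autoImplicit false

namespace Pool.Agent.Results.MP_e444a1_co.Unital

open Pool.Agent.Lib.H13Tang Set Submodule
open scoped Matroid

/-- Tangential `1`-blocks over the finite field `F`. -/
def IsTangentialOneBlock {α : Type} [Finite α] (F : Type) [Field F] [Fintype F]
    (M : Matroid α) : Prop :=
  Simple M ∧ Representable F M ∧ charPoly M (Fintype.card F) = 0 ∧
    ∀ N : Matroid α, N.IsStrictMinor M → Simple N → charPoly N (Fintype.card F) ≠ 0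

/-- `M` has an `m`-point line `U_{2,m}` as a minor. -/
def HasLineMinor {α : Type} (M : Matroid α) (m : ℕ) : Prop :=
  ∃ N : Matroid α, N.IsMinor M ∧ N.E.ncard = m ∧ ∀ I ⊆ N.E, (N.Indep I ↔ I.ncard ≤ 2)

/-- `M` has a minor isomorphic to `M(K_4)`. -/
def HasK4Minor {α : Type} (M : Matroid α) : Prop :=
  ∃ (N : Matroid α) (K : Matroid (Sym2 (Fin 4))) (f : Sym2 (Fin 4) → α),
    N.IsMinor M ∧ IsCycleMatroidComplete 4 K ∧ Set.BijOn f K.E N.E ∧
      ∀ I ⊆ K.E, (K.Indep I ↔ N.Indep (f '' I))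

section general

variable {α F V : Type} [Field F] [AddCommGroup V] [Module F V] {M : Matroid α} {φ : α → V}

theorem minor_pos [Finite α] [Fintype F] [FiniteDimensional F V] (h : Rep F M φ) (hs : Simple M)
    (h3 : Module.finrank F V = 3)
    (htan : ∀ a ∈ M.E, ∃ l : V →ₗ[F] F, l (φ a) = 0 ∧ ∀ e ∈ M.E, e ≠ a → l (φ e) ≠ 0)
    {C D : Set α} (hC : C ⊆ M.E) (hD : D ⊆ M.E) (hne : (C ∪ D).Nonempty)
    (hl : ∀ e ∈ (M ／ C ＼ D).E, (M ／ C ＼ D).Indep {e}) :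
    0 < charPoly (M ／ C ＼ D) ((Fintype.card F : ℤ) ^ 1) := by
  rw [h.minor_pos_iff hC]
  rcases C.eq_empty_or_nonempty with rfl | ⟨a, ha⟩
  · rw [empty_union] at hne
    obtain ⟨d, hd⟩ := hne
    obtain ⟨l, -, hl⟩ := htan d (hD hd)
    exact ⟨LinearMap.pi fun _ => l, fun x hx => hx.elim, fun e he _ heD h0 =>
      hl e he (fun e' => heD (e' ▸ hd)) (congrFun h0 0)⟩
  have hn : ∀ e ∈ M.E, e ∉ C → e ∉ D → φ e ∉ span F (φ '' C) := fun e he h1 h2 =>
    h.notMem_span_of_nonloop hC (hl e ⟨⟨he, h1⟩, h2⟩)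
  have hq := (span F (φ '' C)).finrank_quotient_add_finrank
  rcases lt_trichotomy (Module.finrank F (span F (φ '' C))) 2 with h2 | h2 | h2
  · obtain ⟨l, hl0, hl⟩ := htan a (hC ha)
    have h4 : span F {φ a} = span F (φ '' C) :=
      Submodule.eq_of_le_of_finrank_le (span_mono (singleton_subset_iff.2 ⟨a, ha, rfl⟩))
        (by rw [finrank_span_singleton (h.ne_zero hs (hC ha))]; omega)
    refine ⟨LinearMap.pi fun _ => l, fun x hx => ?_, fun e he h1 _ h0 =>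
      hl e he (fun e' => h1 (e' ▸ ha)) (congrFun h0 0)⟩
    obtain ⟨c, hc⟩ := mem_span_singleton.1 (h4 ▸ subset_span ⟨x, hx, rfl⟩ : φ x ∈ span F {φ a})
    funext z
    simp [← hc, hl0]
  · let ε := LinearEquiv.ofFinrankEq (R := F) (V ⧸ span F (φ '' C)) (Fin 1 → F) (by simp; omega)
    have hz : ∀ w, (ε.toLinearMap ∘ₗ (span F (φ '' C)).mkQ) w = 0 ↔ w ∈ span F (φ '' C) :=
      fun w => by simp
    exact ⟨_, fun x hx => (hz _).2 (subset_span ⟨x, hx, rfl⟩), fun e he h1 h2 h0 =>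
      hn e he h1 h2 ((hz _).1 h0)⟩
  · have : span F (φ '' C) = ⊤ := Submodule.eq_top_of_finrank_eq (by omega)
    exact ⟨0, fun _ _ => rfl, fun e he h1 h2 _ => hn e he h1 h2 (this ▸ mem_top)⟩

theorem line_block [Finite α] [Fintype F] [FiniteDimensional F V] (h : Rep F M φ)
    (hE : M.E.ncard = Fintype.card F + 1) (hI : ∀ I ⊆ M.E, (M.Indep I ↔ I.ncard ≤ 2)) :
    ¬ 0 < charPoly M ((Fintype.card F : ℤ) ^ 1) := by
  classical
  rw [h.charPoly_pos_iff]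
  rintro ⟨L, hL⟩
  let l : V →ₗ[F] F := LinearMap.proj 0 ∘ₗ L
  have hl : ∀ e ∈ M.E, l (φ e) ≠ 0 := fun e he h0 =>
    hL e he (funext fun z => by rw [Subsingleton.elim z 0]; exact h0)
  have hs : Simple M := fun e he f hf =>
    (hI _ (insert_subset he (singleton_subset_iff.2 hf))).2
      ((ncard_insert_le _ _).trans (by simp))
  obtain ⟨u, hu, v, hv, huv⟩ := (one_lt_ncard (toFinite M.E)).1
    (by have := Fintype.card_pos (α := F); omega)
  have hsp : ∀ e : M.E, ∃ p : F × F, p.1 • φ u + p.2 • φ v = φ e := fun e => by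
    have : e.1 ∈ M.closure {u, v} := by
      rw [(hs u hu v hv).mem_closure_iff']
      refine ⟨e.2, fun h1 => ?_⟩
      by_contra h2
      have := (hI _ h1.subset_ground).1 h1
      rw [ncard_insert_of_notMem h2, ncard_pair huv] at this
      omega
    rw [h.mem_closure (hs u hu v hv).subset_ground, image_pair, mem_span_pair] at this
    obtain ⟨-, a, b, hab⟩ := this
    exact ⟨(a, b), hab⟩
  choose p hp using hsp
  have := Fintype.ofFinite M.E
  obtain ⟨e, f, hef, h1⟩ := Fintype.exists_ne_map_eq_of_card_lt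
    (fun e : M.E => (p e).1 / l (φ e))
    (by rw [← Nat.card_eq_fintype_card (α := M.E), Nat.card_coe_set_eq]; omega)
  have he := congrArg l (hp e)
  have hf := congrArg l (hp f)
  simp only [map_add, map_smul, smul_eq_mul] at he hf
  rw [div_eq_div_iff (hl _ e.2) (hl _ f.2)] at h1
  have h2 : (p e).2 * l (φ f) = (p f).2 * l (φ e) :=
    mul_right_cancel₀ (hl v hv) (by linear_combination l (φ f) * he - l (φ e) * hf - l (φ u) * h1)
  refine hef (Subtype.ext (h.eq_of_smul hs e.2 f.2 (hl _ f.2) (d := l (φ e)) ?_))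
  linear_combination (norm := module) (-(l (φ f))) • hp e + l (φ e) • hp f + h1 • φ u + h2 • φ v

theorem coeff_ne (h : Rep F M φ) (hs : Simple M) {x a b : α} (hx : x ∈ M.E) (hb : b ∈ M.E)
    (hxb : x ≠ b) {s t : F} (e : s • φ a + t • φ b = φ x) : s ≠ 0 := fun h0 =>
  hxb (h.eq_of_smul hs hx hb one_ne_zero (d := t) (by rw [← e, h0, zero_smul, zero_add, one_smul]))

theorem gram [StarRing F] (T : Fin 3 → Fin 3 → F) (hT : LinearIndependent F T)
    (h0 : ∀ i, T i ⬝ᵥ star (T i) = 0)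
    (h01 : (T 0 - T 1) ⬝ᵥ star (T 0 - T 1) = 0) (h02 : (T 0 - T 2) ⬝ᵥ star (T 0 - T 2) = 0)
    (h12 : (T 1 - T 2) ⬝ᵥ star (T 1 - T 2) = 0) : False := by
  have hu : IsUnit (Matrix.of T) := Matrix.linearIndependent_rows_iff_isUnit.1 hT
  have hd := (Matrix.isUnit_iff_isUnit_det _).1 (hu.mul hu.star)
  have hG : ∀ i j, (Matrix.of T * star (Matrix.of T)) i j = T i ⬝ᵥ star (T j) := fun i j => rfl
  simp only [star_sub, sub_dotProduct, dotProduct_sub, h0] at h01 h02 h12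
  refine hd.ne_zero ?_
  rw [Matrix.det_fin_three]
  simp only [hG, h0]
  linear_combination (-(T 1 ⬝ᵥ star (T 2)) * (T 0 ⬝ᵥ star (T 1))) * h02 -
    (T 0 ⬝ᵥ star (T 2)) * (T 2 ⬝ᵥ star (T 1)) * h01 +
    (T 0 ⬝ᵥ star (T 2)) * (T 0 ⬝ᵥ star (T 1)) * h12

theorem iso_smul [StarRing F] {v : Fin 3 → F} (h : v ⬝ᵥ star v = 0) (c : F) :
    (c • v) ⬝ᵥ star (c • v) = 0 := by
  rw [star_smul, smul_dotProduct, dotProduct_smul, h, smul_zero, smul_zero]

end general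

theorem tri (i j k : Fin 4) (hij : i ≠ j) (hik : i ≠ k) (hjk : j ≠ k) :
    s(j, k) ∈ (cyc 4).closure {s(i, j), s(i, k)} := by
  rw [cyc, (linMat_rep _ _).mem_closure (insert_subset (by simpa [linMat_E] using hij)
    (singleton_subset_iff.2 (by simpa [linMat_E] using hik))), dv_mem_iff]
  refine ⟨by simpa [linMat_E] using hjk, ?_⟩
  have h1 := (dv_mem_iff (F := ℚ) (fun w => (Pi.single w (1 : ℚ) : Fin 4 → ℚ)) i j _).1
    (subset_span (mem_image_of_mem _ (mem_insert s(i, j) {s(i, k)})))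
  have h2 := (dv_mem_iff (F := ℚ) (fun w => (Pi.single w (1 : ℚ) : Fin 4 → ℚ)) i k _).1
    (subset_span (mem_image_of_mem _ (mem_insert_of_mem s(i, j) (mem_singleton s(i, k)))))
  simpa using sub_mem h2 h1

theorem star_indep : (cyc 4).Indep {s(0, 1), s(0, 2), s(0, 3)} := by
  rw [cyc, linMat_indep]
  refine ⟨by rintro _ (rfl | rfl | rfl) <;> simp, ?_⟩
  rw [linearIndepOn_iff_notMem_span]
  have key : ∀ w : Fin 4, w ≠ 0 → ∀ X : Set (Sym2 (Fin 4)), (∀ e ∈ X, w ∉ e) →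
      dv (fun w => (Pi.single w (1 : ℚ) : Fin 4 → ℚ)) s(0, w) ∉
        span ℚ (dv (fun w => (Pi.single w (1 : ℚ) : Fin 4 → ℚ)) '' X) := fun w hw X hX hm => by
    have : span ℚ (dv (fun w => (Pi.single w (1 : ℚ) : Fin 4 → ℚ)) '' X) ≤
        LinearMap.ker (LinearMap.proj w) := by
      rw [span_le]
      rintro _ ⟨e, he, rfl⟩
      induction e using Sym2.ind with
      | h x y =>
        have := hX _ he
        rw [Sym2.mem_iff, not_or] at this
        rw [SetLike.mem_coe, dv_mem_iff]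
        simp [this.1, this.2]
    have := (dv_mem_iff _ 0 w _).1 (this hm)
    simp [hw] at this
  rintro _ (rfl | rfl | rfl) <;> refine key _ (by decide) _ ?_ <;>
    rintro _ ⟨rfl | rfl | rfl, h⟩ <;> first | exact absurd rfl h | decide

theorem no_K4 {α F : Type} [Field F] [StarRing F] {M : Matroid α} {φ : α → Fin 3 → F}
    (h : Rep F M φ) (hs : Simple M) (hiso : ∀ e ∈ M.E, φ e ⬝ᵥ star (φ e) = 0) :
    ¬ HasK4Minor M := by
  rintro ⟨N, K, f, hN, hK, hf, hI⟩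
  obtain rfl : K = cyc 4 := Matroid.ext_indep (hK.1.trans (cyc_spec 4).1.symm) fun I hI => by
    rw [hK.2 I hI, (cyc_spec 4).2 I (hI.trans (hK.1.trans (cyc_spec 4).1.symm).subset)]
  obtain ⟨C, D, hC, hD, -, rfl⟩ := hN.exists_eq_contract_delete_disjoint
  have hmem : ∀ i j : Fin 4, i ≠ j → s(i, j) ∈ (cyc 4).E := fun i j hij => by
    rw [(cyc_spec 4).1]; simpa using hij
  have hrep : ∀ {W : Type} [AddCommGroup W] [Module F W] (ψ : α → W), Rep F (M ／ C ＼ D) ψ →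
      Rep F (cyc 4) (ψ ∘ f) := fun ψ hψ I hI' => by
    rw [hI I hI', hψ _ (image_subset_iff.2 fun x hx => hf.1 (hI' hx))]
    exact ⟨fun h => h.comp_of_image (hf.2.1.mono hI'), fun h => h.image_of_comp f ψ⟩
  have hli : ∀ {W : Type} [AddCommGroup W] [Module F W] (χ : Sym2 (Fin 4) → W),
      Rep F (cyc 4) χ → LinearIndependent F ![χ s(0, 1), χ s(0, 2), χ s(0, 3)] := fun χ hχ => by
    have := ((hχ _ star_indep.subset_ground).1 star_indep).comp
      (![⟨s(0, 1), by simp⟩, ⟨s(0, 2), by simp⟩, ⟨s(0, 3), by simp⟩] : Fin 3 → _) (by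
        intro i j hij
        fin_cases i <;> fin_cases j <;> first | rfl | (exfalso; revert hij; simp))
    convert this using 1
    funext i
    fin_cases i <;> rfl
  obtain rfl : C = ∅ := by
    have h1 := (hli _ (hrep _ ((h.contractSet hC).delete D))).fintype_card_le_finrank
    have h2 := (span F (φ '' C)).finrank_quotient_add_finrank
    simp only [Fintype.card_fin, Module.finrank_fin_fun] at h1 h2
    have h3 : span F (φ '' C) = ⊥ := Submodule.finrank_eq_zero.1 (by omega)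
    exact eq_empty_of_forall_notMem fun c hc =>
      h.ne_zero hs (hC hc) ((mem_bot F).1 (h3 ▸ subset_span ⟨c, hc, rfl⟩))
  have hχ := hrep φ (by rw [Matroid.contract_empty]; exact h.delete D)
  have hE : ∀ i j : Fin 4, i ≠ j → f s(i, j) ∈ M.E := fun i j hij => (hf.1 (hmem i j hij)).1.1
  have hne : ∀ i j k l : Fin 4, i ≠ j → k ≠ l → s(i, j) ≠ s(k, l) → f s(i, j) ≠ f s(k, l) :=
    fun i j k l hij hkl h1 h2 => h1 (hf.2.1 (hmem i j hij) (hmem k l hkl) h2)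
  have hco : ∀ i j k : Fin 4, i ≠ j → i ≠ k → j ≠ k → ∃ s t : F, s ≠ 0 ∧ t ≠ 0 ∧
      s • φ (f s(i, j)) + t • φ (f s(i, k)) = φ (f s(j, k)) := fun i j k hij hik hjk => by
    have := tri i j k hij hik hjk
    rw [hχ.mem_closure (insert_subset (hmem _ _ hij) (singleton_subset_iff.2 (hmem _ _ hik))),
      image_pair, mem_span_pair] at this
    obtain ⟨-, s, t, hst⟩ := this
    exact ⟨s, t, coeff_ne h hs (hE _ _ hjk) (hE _ _ hik) (hne _ _ _ _ hjk hik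
      (by simp [hij.symm, hjk])) hst, coeff_ne h hs (hE _ _ hjk) (hE _ _ hij)
      (hne _ _ _ _ hjk hij (by simp [hij.symm, hik.symm])) ((add_comm _ _).trans hst), hst⟩
  obtain ⟨a1, b1, ha1, hb1, e1⟩ := hco 0 1 2 (by decide) (by decide) (by decide)
  obtain ⟨a2, c2, -, hc2, e2⟩ := hco 0 1 3 (by decide) (by decide) (by decide)
  obtain ⟨b3, c3, -, -, e3⟩ := hco 0 2 3 (by decide) (by decide) (by decide)
  obtain ⟨l, m, hl, hm, e4⟩ := hco 1 2 3 (by decide) (by decide) (by decide)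
  have h5 := hli _ hχ
  have h6 := Fintype.linearIndependent_iff.1 h5 ![l * a1 + m * a2, l * b1 - b3, m * c2 - c3] (by
    simp only [Fin.sum_univ_three, Matrix.cons_val, Function.comp]
    linear_combination (norm := module) l • e1 + m • e2 + e4 - e3) 0
  simp only [Matrix.cons_val] at h6
  refine gram ![(l * a1) • φ (f s(0, 1)), (-(l * b1)) • φ (f s(0, 2)), (m * c2) • φ (f s(0, 3))]
    ?_ (fun i => ?_) ?_ ?_ ?_
  · have h7 := h5.units_smul ![Units.mk0 _ (mul_ne_zero hl ha1),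
      Units.mk0 _ (neg_ne_zero.2 (mul_ne_zero hl hb1)), Units.mk0 _ (mul_ne_zero hm hc2)]
    refine (congrArg (fun v : Fin 3 → Fin 3 → F => LinearIndependent F v) ?_).mp h7
    funext i
    fin_cases i <;> rfl
  · fin_cases i <;> exact iso_smul (hiso _ (hE _ _ (by decide))) _
  · convert iso_smul (hiso _ (hE 1 2 (by decide))) l using 3 <;>
      (simp only [Matrix.cons_val]; linear_combination (norm := module) l • e1)
  · convert iso_smul (hiso _ (hE 1 3 (by decide))) (-m) using 3 <;>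
      (simp only [Matrix.cons_val]; linear_combination (norm := module) (-m) • e2 + h6 • φ (f s(0, 1)))
  · convert iso_smul (hiso _ (hE 2 3 (by decide))) (-1) using 3 <;>
      (simp only [Matrix.cons_val]
       linear_combination (norm := module) (-l) • e1 - m • e2 - e4 + h6 • φ (f s(0, 1)))

instance : Fact (∀ r : ZMod 3, r ^ 2 ≠ -1 + 0 * r) := ⟨by decide⟩

/-- The field with nine elements. -/
abbrev F9 : Type := QuadraticAlgebra (ZMod 3) (-1) 0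

instance : Fintype F9 := Fintype.ofEquiv _ (QuadraticAlgebra.equivProd _ _).symm

/-- The 28 points of the Hermitian curve. -/
def pt : Fin 28 → Fin 3 → F9 :=
  ![![⟨1, 0⟩, ⟨0, 0⟩, ⟨1, 1⟩], ![⟨1, 0⟩, ⟨0, 0⟩, ⟨1, 2⟩], ![⟨1, 0⟩, ⟨0, 0⟩, ⟨2, 1⟩],
    ![⟨1, 0⟩, ⟨0, 0⟩, ⟨2, 2⟩], ![⟨1, 0⟩, ⟨0, 1⟩, ⟨0, 1⟩], ![⟨1, 0⟩, ⟨0, 1⟩, ⟨0, 2⟩],
    ![⟨1, 0⟩, ⟨0, 1⟩, ⟨1, 0⟩], ![⟨1, 0⟩, ⟨0, 1⟩, ⟨2, 0⟩], ![⟨1, 0⟩, ⟨0, 2⟩, ⟨0, 1⟩],
    ![⟨1, 0⟩, ⟨0, 2⟩, ⟨0, 2⟩], ![⟨1, 0⟩, ⟨0, 2⟩, ⟨1, 0⟩], ![⟨1, 0⟩, ⟨0, 2⟩, ⟨2, 0⟩],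
    ![⟨1, 0⟩, ⟨1, 0⟩, ⟨0, 1⟩], ![⟨1, 0⟩, ⟨1, 0⟩, ⟨0, 2⟩], ![⟨1, 0⟩, ⟨1, 0⟩, ⟨1, 0⟩],
    ![⟨1, 0⟩, ⟨1, 0⟩, ⟨2, 0⟩], ![⟨1, 0⟩, ⟨1, 1⟩, ⟨0, 0⟩], ![⟨1, 0⟩, ⟨1, 2⟩, ⟨0, 0⟩],
    ![⟨1, 0⟩, ⟨2, 0⟩, ⟨0, 1⟩], ![⟨1, 0⟩, ⟨2, 0⟩, ⟨0, 2⟩], ![⟨1, 0⟩, ⟨2, 0⟩, ⟨1, 0⟩],
    ![⟨1, 0⟩, ⟨2, 0⟩, ⟨2, 0⟩], ![⟨1, 0⟩, ⟨2, 1⟩, ⟨0, 0⟩], ![⟨1, 0⟩, ⟨2, 2⟩, ⟨0, 0⟩],
    ![⟨0, 0⟩, ⟨1, 0⟩, ⟨1, 1⟩], ![⟨0, 0⟩, ⟨1, 0⟩, ⟨1, 2⟩], ![⟨0, 0⟩, ⟨1, 0⟩, ⟨2, 1⟩],
    ![⟨0, 0⟩, ⟨1, 0⟩, ⟨2, 2⟩]]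

theorem pt_iso : ∀ i, pt i ⬝ᵥ star (pt i) = 0 := by decide +kernel

theorem pt_tan : ∀ i j, pt j ⬝ᵥ star (pt i) = 0 → j = i := by decide +kernel

theorem pt_block : ∀ a b c : F9, ∃ i, pt i 0 * a + pt i 1 * b + pt i 2 * c = 0 := by
  decide +kernel

theorem result : ∃ (F : Type) (_ : Field F) (_ : Fintype F) (α : Type) (_ : Finite α)
    (M : Matroid α), Odd (Fintype.card F) ∧ IsTangentialOneBlock F M ∧
      ¬ HasLineMinor M (Fintype.card F + 1) ∧ ¬ HasK4Minor M := by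
  have hc : Fintype.card F9 = 9 := by decide
  have h : Rep F9 (linMat F9 pt univ) pt := linMat_rep _ _
  have hs : Simple (linMat F9 pt univ) := fun e _ f _ => by
    have h0 : ∀ i, pt i ≠ 0 := by decide +kernel
    rw [h _ (subset_univ _)]
    by_cases hef : e = f
    · subst hef
      simpa using h0 e
    rw [linearIndepOn_pair_iff _ hef (h0 e)]
    intro c hc
    exact hef (pt_tan e f (by rw [← hc, smul_dotProduct, pt_iso, smul_zero])).symm
  have htan : ∀ a ∈ (linMat F9 pt univ).E, ∃ l : (Fin 3 → F9) →ₗ[F9] F9, l (pt a) = 0 ∧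
      ∀ e ∈ (linMat F9 pt univ).E, e ≠ a → l (pt e) ≠ 0 := fun a _ =>
    ⟨(dotProductBilin F9 F9).flip (star (pt a)), pt_iso a, fun e _ hea h0 => hea (pt_tan a e h0)⟩
  have hmin : ∀ N : Matroid (Fin 28), N.IsStrictMinor (linMat F9 pt univ) →
      (∀ e ∈ N.E, N.Indep {e}) → 0 < charPoly N ((Fintype.card F9 : ℤ) ^ 1) := fun N hN hl => by
    obtain ⟨C, D, hC, hD, -, rfl⟩ := hN.isMinor.exists_eq_contract_delete_disjoint
    refine minor_pos h hs (by simp) htan hC hD ?_ hl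
    by_contra h0
    rw [Set.not_nonempty_iff_eq_empty, Set.union_empty_iff] at h0
    exact hN.ne (by simp [h0.1, h0.2])
  refine ⟨F9, inferInstance, inferInstance, Fin 28, inferInstance, linMat F9 pt univ,
    by rw [hc]; decide, ⟨hs, h.representable, ?_, fun N hN hNs => ?_⟩, ?_,
    no_K4 h hs fun e _ => pt_iso e⟩
  · rw [← pow_one (Fintype.card F9 : ℤ)]
    refine le_antisymm (not_lt.1 ?_) (h.charPoly_nonneg 1)
    rw [h.charPoly_pos_iff]
    rintro ⟨L, hL⟩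
    obtain ⟨i, hi⟩ := pt_block (L (Pi.single 0 1) 0) (L (Pi.single 1 1) 0) (L (Pi.single 2 1) 0)
    refine hL i trivial (funext fun z => ?_)
    rw [Subsingleton.elim z 0, pi_eq_sum_univ' (pt i)]
    simpa [Fin.sum_univ_three] using hi
  · rw [← pow_one (Fintype.card F9 : ℤ)]
    exact (hmin N hN fun e he => by simpa using hNs e he e he).ne'
  · rintro ⟨N, hN, hE, hI⟩
    have hpos := hmin N ⟨hN, fun h' => by
      have := ncard_le_ncard h'.subset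
      rw [hE, hc, linMat_E, ncard_univ] at this
      simp at this⟩ fun e he => (hI _ (singleton_subset_iff.2 he)).2 (by simp)
    obtain ⟨C, D, hC, hD, -, rfl⟩ := hN.exists_eq_contract_delete_disjoint
    exact line_block ((h.contractSet hC).delete D) hE hI hpos

end Pool.Agent.Results.MP_e444a1_co.Unital
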